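import Pool.Agent.W622.ETG.Lin

/-!
# ELG-A3: a maximal cone `M` in a normal form of `A_b`, `p b = 0`
-/

set_option autoImplicit false
set_option linter.unusedSectionVars false

namespace Pool.Agent.W61.ELG

open Pool.Agent.W622.ETG Module

section
variable {V : Type} [AddCommGroup V] [Module (ZMod 2) V] [Finite V] {e : V}

theorem exists_not_span {Z : DSub V} {p : Dl V} (h : 2 ≤ finrank (ZMod 2) Z) :
    ∃ g ∈ Z, g ≠ 0 ∧ g ≠ p := by
  by_contra hc
  push Not at hc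
  have h1 : Z ≤ Submodule.span (ZMod 2) {p} := by
    intro g hg
    rw [span_one_mem]
    by_cases h0 : g = 0
    · exact Or.inl h0
    · exact Or.inr (hc g hg h0)
  have h2 := Submodule.finrank_mono h1
  have h3 : finrank (ZMod 2) (Submodule.span (ZMod 2) {p}) ≤ 1 := by
    have := finrank_span_le_card (R := ZMod 2) ({p} : Set (Dl V))
    simpa using this
  omega

/-- for `p ≠ 0`, `g ∉ {0, p}` there is `a` with `p a = 1`, `g a = 0` -/
theorem exists_sep {p g : Dl V} (hp : p ≠ 0) (hg : g ≠ p) : ∃ a : V, p a = 1 ∧ g a = 0 := by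
  have h : p ∉ Submodule.span (ZMod 2) {g} := by
    rw [span_one_mem]
    rintro (h | h)
    · exact hp h
    · exact hg h.symm
  obtain ⟨a, ha, ha1⟩ := exists_coann h
  exact ⟨a, ha1, ha g (Submodule.mem_span_singleton_self g)⟩

theorem wd_mem_of {p g : Dl V} {X : DSub V} (hp : p ∈ X) (hg : g ∈ X) (a : V) :
    wd e p g a ∈ X := by
  rw [wd_apply]
  exact X.add_mem (X.add_mem (X.smul_mem _ hg) (X.smul_mem _ hp)) (X.smul_mem _ hp)

/-- the value set of the cone is in `X` when the members are -/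
theorem cone_le {M' X : DSub V} {p : Dl V} (h3 : 2 ≤ finrank (ZMod 2) M')
    (hp0 : p ≠ 0) (h : ∀ g ∈ M', ∀ a, wd e p g a ∈ X) : M' ≤ X := by
  have key : ∀ g ∈ M', g ≠ 0 → g ≠ p → g ∈ X ∧ p ∈ X := by
    intro g hg hg0 hgp
    have hpX : p ∈ X := by
      obtain ⟨a, ha1, ha2⟩ := exists_sep hg0 hgp.symm
      have := h g hg a
      rwa [wd_val_zero ha2, ha1, one_smul] at this
    refine ⟨?_, hpX⟩
    obtain ⟨a, ha1, ha2⟩ := exists_sep hp0 hgp
    have h1 := h g hg a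
    rw [wd_val_one' ha1] at h1
    have h2 := X.sub_mem h1 (X.smul_mem (g a + g e) hpX)
    rwa [add_sub_cancel_right] at h2
  intro g hg
  by_cases hg0 : g = 0
  · rw [hg0]; exact X.zero_mem
  by_cases hgp : g = p
  · obtain ⟨g', hg', h0, h1⟩ := exists_not_span (p := p) h3
    rw [hgp]
    exact (key g' hg' h0 h1).2
  · exact (key g hg hg0 hgp).1

theorem finrank_inf_ann {M : DSub V} {b : V} (hM : ¬ M ≤ ann b) (hb : b ≠ 0) :
    finrank (ZMod 2) (M ⊓ ann b : DSub V) + 1 = finrank (ZMod 2) M := by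
  have h1 := Submodule.finrank_sup_add_finrank_inf_eq M (ann b : DSub V)
  have h2 := finrank_ann hb
  have h3 : (ann b : DSub V) < M ⊔ ann b := by
    refine lt_of_le_of_ne le_sup_right ?_
    intro h
    exact hM (h ▸ le_sup_left)
  have h4 := Submodule.finrank_lt_finrank_of_lt h3
  have h5 : finrank (ZMod 2) (M ⊔ ann b : DSub V) ≤ finrank (ZMod 2) (Dl V) := Submodule.finrank_le _
  rw [finrank_Dl] at h5
  omega

/-- a nonzero member has a nonzero component -/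
theorem comp_exists (hSPLIT : S_SPLIT) {A : Fam V} {s : Set (DSub V)} {ω : Frm V}
    (hA : EFam e A) (hs : Comps e A s) (hω : ω ∈ A) (hω0 : ω ≠ 0) :
    ∃ X ∈ s, ∃ α ∈ res A X, ∃ β ∈ res A (sSup (s \ {X})), α ≠ 0 ∧ α + β = ω := by
  have hfin : {t : Set (DSub V) | t ⊆ s ∧ sp ω ≤ sSup t}.Finite := Set.toFinite _
  have hsp : sp ω ≤ sSup s := by
    have h1 : A ≤ res A (sSup s) := by
      conv_lhs => rw [hs.2.1]
      exact iSup₂_le fun X hX => res_mono A (le_sSup hX)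
    exact (mem_res'.mp (h1 hω)).2
  have hne : {t : Set (DSub V) | t ⊆ s ∧ sp ω ≤ sSup t}.Nonempty := ⟨s, subset_rfl, hsp⟩
  obtain ⟨t, ht⟩ := hfin.exists_minimal hne
  obtain ⟨⟨hts, htω⟩, hmin⟩ := ht
  have htne : t.Nonempty := by
    rw [Set.nonempty_iff_ne_empty]
    rintro rfl
    rw [sSup_empty, le_bot_iff] at htω
    exact hω0 (sp_eq_bot.mp htω)
  obtain ⟨X, hX⟩ := htne
  have h4 := (hSPLIT V e A s t hA hs hts).2.2
  have hω' : ω ∈ res A (sSup t) := mem_res'.mpr ⟨hω, htω⟩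
  obtain ⟨h5, h6, -⟩ := hSPLIT V e (res A (sSup t)) t {X} (hA.res _) h4
    (Set.singleton_subset_iff.mpr hX)
  rw [h5] at hω'
  obtain ⟨α, hα, β, hβ, hαβ⟩ := Submodule.mem_sup.mp hω'
  refine ⟨X, hts hX, α, ?_, β, ?_, ?_, hαβ⟩
  · refine mem_res'.mpr ⟨hα.1.1, ?_⟩
    have := (mem_res'.mp hα).2
    rwa [sSup_singleton] at this
  · refine mem_res'.mpr ⟨hβ.1.1, (mem_res'.mp hβ).2.trans (sSup_le_sSup ?_)⟩
    exact Set.sdiff_subset_sdiff_left hts
  · intro hα0
    subst hα0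
    rw [zero_add] at hαβ
    subst hαβ
    have h7 : t \ {X} ∈ {t : Set (DSub V) | t ⊆ s ∧ sp β ≤ sSup t} :=
      ⟨Set.sdiff_subset.trans hts, (mem_res'.mp hβ).2⟩
    have h8 := hmin h7 Set.sdiff_subset hX
    exact h8.2 rfl

theorem finrank_sp_add {α β : Frm V} (hα : EF e α) (hβ : EF e β) (h : Disjoint (sp α) (sp β)) :
    finrank (ZMod 2) (sp (α + β)) = finrank (ZMod 2) (sp α) + finrank (ZMod 2) (sp β) := by
  have h2 := Submodule.finrank_sup_add_finrank_inf_eq (sp α) (sp β)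
  rw [h.eq_bot, finrank_bot] at h2
  rw [sp_add hα hβ h]
  omega

theorem finrank_pos' {α : Frm V} (h : α ≠ 0) : 1 ≤ finrank (ZMod 2) (sp α) := by
  rw [Nat.one_le_iff_ne_zero]
  intro h0
  exact h (sp_eq_bot.mp (Submodule.finrank_eq_zero.mp h0))

/-- members of rank two: one component, or two of rank one -/
theorem rank_two (hSPLIT : S_SPLIT) {A : Fam V} {s : Set (DSub V)} {ω : Frm V}
    (hA : EFam e A) (hs : Comps e A s) (hω : ω ∈ A) (h2 : finrank (ZMod 2) (sp ω) = 2) :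
    (∃ X ∈ s, sp ω ≤ X) ∨ ∃ X₁ ∈ s, ∃ X₂ ∈ s, X₁ ≠ X₂ ∧ ∃ α₁ ∈ res A X₁, ∃ α₂ ∈ res A X₂,
      finrank (ZMod 2) (sp α₁) = 1 ∧ finrank (ZMod 2) (sp α₂) = 1 ∧ sp ω = sp α₁ ⊔ sp α₂ := by
  have hω0 : ω ≠ 0 := by
    rintro rfl
    rw [sp_zero, finrank_bot] at h2
    omega
  obtain ⟨X₁, hX₁, α, hα, β, hβ, hα0, hαβ⟩ := comp_exists hSPLIT hA hs hω hω0
  have hd1 : Disjoint X₁ (sSup (s \ {X₁})) := hs.1 hX₁
  by_cases hβ0 : β = 0
  · left
    refine ⟨X₁, hX₁, ?_⟩
    rw [← hαβ, hβ0, add_zero]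
    exact (mem_res'.mp hα).2
  right
  obtain ⟨-, -, h3⟩ := hSPLIT V e A s (s \ {X₁}) hA hs Set.sdiff_subset
  obtain ⟨X₂, hX₂, γ, hγ, δ, hδ, hγ0, hγδ⟩ := comp_exists hSPLIT (hA.res _) h3 hβ hβ0
  have hd2 : Disjoint X₂ (sSup ((s \ {X₁}) \ {X₂})) := h3.1 hX₂
  have hαe : EF e α := hA α hα.1
  have hβe : EF e β := hA β hβ.1
  have hγe : EF e γ := hA γ hγ.1.1
  have hδe : EF e δ := hA δ hδ.1.1
  have hdα : Disjoint (sp α) (sp β) := hd1.mono (mem_res'.mp hα).2 (mem_res'.mp hβ).2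
  have hdγ : Disjoint (sp γ) (sp δ) := hd2.mono (mem_res'.mp hγ).2 (mem_res'.mp hδ).2
  have e1 := finrank_sp_add hαe hβe hdα
  have e2 := finrank_sp_add hγe hδe hdγ
  rw [hαβ, h2] at e1
  rw [hγδ] at e2
  have p1 := finrank_pos' hα0
  have p2 := finrank_pos' hγ0
  have hδ0 : finrank (ZMod 2) (sp δ) = 0 := by omega
  have hδ00 : δ = 0 := sp_eq_bot.mp (Submodule.finrank_eq_zero.mp hδ0)
  have hβγ : β = γ := by rw [← hγδ, hδ00, add_zero]
  refine ⟨X₁, hX₁, X₂, hX₂.1, fun h => hX₂.2 h.symm, α, hα, γ,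
    mem_res'.mpr ⟨hγ.1.1, (mem_res'.mp hγ).2⟩, by omega, by omega, ?_⟩
  rw [← hαβ, ← hβγ]
  exact sp_add hαe hβe hdα

theorem exists_maxCone {A : Fam V} {X : DSub V} (h : IsCone e A X) :
    ∃ M, MaxCone e A M ∧ X ≤ M := by
  have hfin : {Y : DSub V | IsCone e A Y}.Finite := Set.toFinite _
  obtain ⟨M, hXM, hM⟩ := hfin.exists_le_maximal h
  exact ⟨M, ⟨hM.prop, fun Y hY hMY => le_antisymm (hM.le_of_ge hY hMY) hMY⟩, hXM⟩

theorem t_A3 (hSPLIT : S_SPLIT) (hES1 : S_ES1) (hMCD : S_MCD) : S_A3 := by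
  intro V _ _ _ e A M p b s hMC hMax hC hb hpb hMb hs
  obtain ⟨hM3, hpM, hp0, hpe, hwM⟩ := hC
  have hpZ : p ∈ M ⊓ ann b := ⟨hpM, hpb⟩
  have hdim := finrank_inf_ann hMb hb
  have h2 : 2 ≤ finrank (ZMod 2) (M ⊓ ann b : DSub V) := by omega
  have hAb : EFam e (res A (ann b)) := hMC.ef.res _
  have hwd : ∀ g ∈ M ⊓ ann b, wd e p g ∈ res A (ann b) := by
    intro g hg
    exact ⟨hwM g hg.1, fun a => wd_mem_of hpZ.2 hg.2 a⟩
  -- a cone of `A_b` which meets `M` is contained in `M ⊓ ann b`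
  have hcone : ∀ X : DSub V, IsCone e (res A (ann b)) X → (∃ t ∈ X, t ∈ M ∧ t ≠ 0) →
      X ≤ M ⊓ ann b := by
    rintro X ⟨p', h3, hp', hp'0, hp'e, hw⟩ ⟨t, htX, htM, ht0⟩
    have hXb : X ≤ ann b := cone_le (by omega) hp'0 fun g hg a => (hw g hg).2 a
    obtain ⟨M₁, hM₁, hXM₁⟩ := exists_maxCone (e := e) (A := A) (X := X)
      ⟨p', h3, hp', hp'0, hp'e, fun g hg => (hw g hg).1⟩
    have hMM : M₁ = M := by
      by_contra hne
      have hd := hMCD V e A M₁ M hMC hM₁ hMax hne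
      have h4 : t ∈ M₁ ⊓ M := ⟨hXM₁ htX, htM⟩
      rw [hd.eq_bot, Submodule.mem_bot] at h4
      exact ht0 h4
    exact le_inf (hMM ▸ hXM₁) hXb
  by_cases hX : ∃ X ∈ s, M ⊓ ann b ≤ X
  · left
    obtain ⟨M', hM's, hZM'⟩ := hX
    suffices h : M' ≤ M ⊓ ann b by
      rwa [le_antisymm hZM' h]
    rcases hs.2.2 M' hM's with ⟨ω, hω, hM'⟩ | hcM'
    · obtain ⟨g, hg, hg0, hgp⟩ := exists_not_span (p := p) h2
      have h4 : sp (wd e p g) ≤ M ⊓ ann b := sp_le.2 fun a => wd_mem_of hpZ hg a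
      have h5 : wd e p g ≠ 0 := by
        intro h0
        have h6 := sp_wd (e := e) hp0 hg0 hgp
        rw [h0, sp_zero] at h6
        have h7 : p ∈ (⊥ : DSub V) := by
          rw [h6]
          exact Submodule.subset_span (by simp)
        exact hp0 ((Submodule.mem_bot _).mp h7)
      rcases hω.2.2 (wd e p g) (hwd g hg) (by rw [← hM']; exact h4.trans hZM') with h6 | h6
      · exact absurd h6 h5
      · rw [hM', ← h6]; exact h4
    · exact hcone M' hcM' ⟨p, hZM' hpZ, hpM, hp0⟩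
  · right
    have hnot : ¬ (3 ≤ finrank (ZMod 2) (M ⊓ ann b : DSub V) ∨
        (2 ≤ finrank (ZMod 2) (M ⊓ ann b : DSub V) ∧ M ⊓ ann b ≤ ann e)) := fun h =>
      hX (hES1 V e (res A (ann b)) s (M ⊓ ann b) p hAb hs hp0 hpZ hpe h hwd)
    push Not at hnot
    obtain ⟨hlt, hnle⟩ := hnot
    have hZ2 : finrank (ZMod 2) (M ⊓ ann b : DSub V) = 2 := by omega
    have hne : ¬ (M ⊓ ann b ≤ ann e) := hnle h2
    obtain ⟨g, hg, hge⟩ := SetLike.not_le_iff_exists.mp hne
    have hge1 : g e ≠ 0 := fun h => hge h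
    have hg0 : g ≠ 0 := by
      rintro rfl
      exact hge1 rfl
    have hgp : g ≠ p := by
      rintro rfl
      exact hge1 hpe
    have hspw := sp_wd (e := e) hp0 hg0 hgp
    have hle : sp (wd e p g) ≤ M ⊓ ann b := sp_le.2 fun a => wd_mem_of hpZ hg a
    have hspan2 : finrank (ZMod 2) (Submodule.span (ZMod 2) ({p, g} : Set (Dl V))) = 2 := by
      have hle2 : finrank (ZMod 2) (Submodule.span (ZMod 2) ({p, g} : Set (Dl V))) ≤ 2 := by
        have h9 := Submodule.finrank_mono hle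
        rw [hspw] at h9
        omega
      have hlt1 : Submodule.span (ZMod 2) ({p} : Set (Dl V)) <
          Submodule.span (ZMod 2) ({p, g} : Set (Dl V)) := by
        refine lt_of_le_of_ne (Submodule.span_mono (by simp)) ?_
        intro heq
        have h7 : g ∈ Submodule.span (ZMod 2) ({p} : Set (Dl V)) := by
          rw [heq]
          exact Submodule.subset_span (by simp)
        rw [span_one_mem] at h7
        rcases h7 with h7 | h7
        · exact hg0 h7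
        · exact hgp h7
      have h8 := Submodule.finrank_lt_finrank_of_lt hlt1
      rw [finrank_span_singleton hp0] at h8
      omega
    have hsp2 : finrank (ZMod 2) (sp (wd e p g)) = 2 := by rw [hspw]; exact hspan2
    have hspZ : sp (wd e p g) = M ⊓ ann b :=
      Submodule.eq_of_le_of_finrank_eq hle (by rw [hsp2, hZ2])
    rcases rank_two hSPLIT hAb hs (hwd g hg) hsp2 with ⟨X, hXs, hXle⟩ |
      ⟨X₁, hX₁, X₂, hX₂, hne12, α₁, hα₁, α₂, hα₂, r1, r2, hsum⟩
    · exact absurd ⟨X, hXs, hspZ ▸ hXle⟩ hX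
    · -- a component which contains the support of a member of rank one is spanned by it
      have key : ∀ X ∈ s, ∀ α ∈ res (res A (ann b)) X, finrank (ZMod 2) (sp α) = 1 →
          sp α ≤ M ⊓ ann b → X = sp α := by
        intro X hXs α hα hr hαZ
        rcases hs.2.2 X hXs with ⟨ω, hω, hXω⟩ | hcX
        · rcases hω.2.2 α hα.1 (by rw [← hXω]; exact (mem_res'.mp hα).2) with h6 | h6
          · rw [h6, sp_zero, finrank_bot] at hr
            omega
          · rw [hXω, h6]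
        · exfalso
          have hne0 : sp α ≠ ⊥ := by
            intro h6
            rw [h6, finrank_bot] at hr
            omega
          obtain ⟨t, ht, ht0⟩ := Submodule.exists_mem_ne_zero_of_ne_bot hne0
          have h7 := hcone X hcX ⟨t, (mem_res'.mp hα).2 ht, (hαZ ht).1, ht0⟩
          have h8 := Submodule.finrank_mono h7
          obtain ⟨p', h3, -⟩ := hcX
          omega
      have hle1 : sp α₁ ≤ M ⊓ ann b := by rw [← hspZ, hsum]; exact le_sup_left
      have hle2 : sp α₂ ≤ M ⊓ ann b := by rw [← hspZ, hsum]; exact le_sup_right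
      have k1 := key X₁ hX₁ α₁ hα₁ r1 hle1
      have k2 := key X₂ hX₂ α₂ hα₂ r2 hle2
      obtain ⟨t₁, ht₁⟩ : ∃ t : Dl V, sp α₁ = Submodule.span (ZMod 2) {t} := by
        obtain ⟨v, -, hv⟩ := finrank_eq_one_iff'.mp r1
        refine ⟨v.1, le_antisymm ?_ ?_⟩
        · intro x hx
          obtain ⟨c, hc⟩ := hv ⟨x, hx⟩
          rw [Submodule.mem_span_singleton]
          exact ⟨c, congrArg Subtype.val hc⟩
        · rw [Submodule.span_singleton_le_iff_mem]
          exact v.2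
      obtain ⟨t₂, ht₂⟩ : ∃ t : Dl V, sp α₂ = Submodule.span (ZMod 2) {t} := by
        obtain ⟨v, -, hv⟩ := finrank_eq_one_iff'.mp r2
        refine ⟨v.1, le_antisymm ?_ ?_⟩
        · intro x hx
          obtain ⟨c, hc⟩ := hv ⟨x, hx⟩
          rw [Submodule.mem_span_singleton]
          exact ⟨c, congrArg Subtype.val hc⟩
        · rw [Submodule.span_singleton_le_iff_mem]
          exact v.2
      refine ⟨t₁, t₂, ?_, ?_, ?_, ?_⟩
      · rw [← ht₁, ← k1]; exact hX₁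
      · rw [← ht₂, ← k2]; exact hX₂
      · rw [← ht₁, ← ht₂, ← k1, ← k2]; exact hne12
      · rw [← hspZ, hsum, ht₁, ht₂, ← Submodule.span_union]
        rfl

end

end Pool.Agent.W61.ELG
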